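import Pool.Agent.Dim7.PD.Stmts
import Pool.Agent.Dim7.Main

/-!
# The archimedean part at perturbed zeta values

The proof of `AR_of` is that of `A_main_of` in `Pool/Agent/Dim7/AM.lean`, with the additional error of the
perturbation and with the dependence on `β` made explicit (port of `Pool/Agent/TH21/PD9/AR.lean`).
-/

open Polynomial Pool.Agent.H337R2 Filter Topology

namespace Pool.Agent.Dim7.PD

noncomputable section

/-- the total potential of the zeta part at the poles -/
lemma potX (hFX : SFX) : ∃ C : ℝ, 0 < C ∧ ∀ n : ℕ, 6 ≤ n → ∀ u : ℤ, |u| ≤ 5 * n →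
    n * phi (20 * (u : ℝ) / n) + Lp n (Finset.range (20 * n - 20)) (20 * u) +
      Lp n (Finset.range (10 * n - 10)) (20 * u) ≤
      1877 / 10 * n + 60 * n * Real.log n + C * Real.log n := by
  obtain ⟨C3, hC3, h3⟩ := G3_Lp
  refine ⟨16 * C3, by positivity, fun n hn u hu => ?_⟩
  have hn' := AM.three_le hn
  have hn0 : (0 : ℝ) < n := by linarith
  have hl2 : 0 < Real.log 2 := Real.log_pos (by norm_num)
  have hl := AM.log2_le hn
  have hu' : |(u : ℝ)| ≤ 5 * n := by exact_mod_cast hu
  have hu1 := abs_le.mp hu'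
  have a2 := (abs_le.mp (h3 n hn 0 20 (by norm_num) le_rfl (20 * u))).2
  have a3 := (abs_le.mp (h3 n hn 0 10 (by norm_num) (by norm_num) (20 * u))).2
  rw [← AM.range_eq] at a2
  rw [← AM.range_eq] at a3
  push_cast at a2 a3
  have habs : |20 * (u : ℝ)| = 20 * |(u : ℝ)| := by rw [abs_mul]; norm_num
  rw [habs] at a2 a3
  have hab0 := abs_nonneg (u : ℝ)
  have hlog : Real.log ((n : ℝ) + 20 * |(u : ℝ)|) ≤ 8 * Real.log n := by
    have := AM.log_pow_mul (x := (n : ℝ) + 20 * |(u : ℝ)|) (y := n) 7 (by linarith) hn0 hl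
      (by linarith)
    push_cast at this
    linarith
  have hs : ∑ g ∈ Finset.Ico 0 20, Ub g (20 * (u : ℝ) / n) =
      ∑ g ∈ Finset.range 10, Ub g (20 * (u : ℝ) / n) + ∑ g ∈ Finset.Ico 10 20, Ub g (20 * (u : ℝ) / n) := by
    rw [Finset.range_eq_Ico, Finset.sum_Ico_consecutive _ (by norm_num) (by norm_num)]
  rw [hs] at a2
  rw [← Finset.range_eq_Ico] at a3
  have hC3l : C3 * Real.log ((n : ℝ) + 20 * |(u : ℝ)|) ≤ 8 * (C3 * Real.log n) := by
    calc C3 * Real.log ((n : ℝ) + 20 * |(u : ℝ)|) ≤ C3 * (8 * Real.log n) := by gcongr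
      _ = _ := by ring
  have hw1 : -100 ≤ 20 * (u : ℝ) / n := by
    rw [le_div_iff₀ hn0]; linarith
  have hw2 : 20 * (u : ℝ) / n ≤ 100 := by
    rw [div_le_iff₀ hn0]; linarith
  have hF := mul_le_mul_of_nonneg_left (hFX _ hw1 hw2) hn0.le
  unfold FN at hF
  have e3 : 16 * C3 * Real.log n = 8 * (C3 * Real.log n) + 8 * (C3 * Real.log n) := by ring
  rw [e3]
  simp only [sub_zero] at a2 a3
  have e4 : (n : ℝ) * (phi (20 * (u : ℝ) / n) + 2 * ∑ g ∈ Finset.range 10, Ub g (20 * (u : ℝ) / n) +
      ∑ g ∈ Finset.Ico 10 20, Ub g (20 * (u : ℝ) / n)) = n * phi (20 * (u : ℝ) / n) +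
      n * (∑ g ∈ Finset.range 10, Ub g (20 * (u : ℝ) / n) + ∑ g ∈ Finset.Ico 10 20, Ub g (20 * (u : ℝ) / n)) +
      n * ∑ g ∈ Finset.range 10, Ub g (20 * (u : ℝ) / n) := by ring
  rw [e4] at hF
  linarith

open AM in
/-- **the archimedean part** at perturbed zeta values, uniform in the numbers -/
theorem AR_of (hFX : SFX) (hRH : SRH) (hBL : SBL) (hSA : SSVadd) (hSE : SSVentry) : SAR := by
  have G0z : St_G0_zq_inj := G0_zq_inj
  have G0X : St_G0_nd_X := G0_nd_X
  have G0Y : St_G0_nd_Y := G0_nd_Y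
  have G6c : St_G6_cross := G6_cross
  obtain ⟨K1, hK1, hsup⟩ := supN G3_Lp G4_weight V1_upper V1_tail
  obtain ⟨K2, hK2, hlow⟩ := lowN G3_Lp G4_weight V2_lower
  obtain ⟨C2, hC2, hG2⟩ := hBL
  obtain ⟨C3, hC3, hY⟩ := potY G3_Lp V3_upperY
  obtain ⟨C9, hC9, hX⟩ := potX hFX
  obtain ⟨C4, hC4, hG4⟩ := hRH
  obtain ⟨C5, hC5, hS⟩ := G5_sat
  obtain ⟨C6, hC6, hG6⟩ := G6_pair
  obtain ⟨K7, hK7, h1000⟩ := const_le (Real.log 1001)
  obtain ⟨K8, hK8, h2000⟩ := const_le (Real.log 2000)
  obtain ⟨K9, hK9, h3⟩ := const_le (Real.log 3)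
  set T : ℝ := 120 + 640 + 5 * (K1 + K2 + K8) + 5 * (K7 + K1) + 10 * (C3 + C2) + C5 + 800 * C6 + 1280 with hT
  have hlim0 : Tendsto (fun n : ℕ => Real.log n / (n : ℝ)) atTop (𝓝 0) := by
    have := (Real.isLittleO_log_id_atTop.tendsto_div_nhds_zero).comp tendsto_natCast_atTop_atTop
    simpa [Function.comp_def] using this
  have hpert : ∀ᶠ n : ℕ in atTop, (K9 + C9 + C4) * Real.log n ≤ 1 / 4 * n := by
    have h2 : Tendsto (fun n : ℕ => (K9 + C9 + C4) * (Real.log n / (n : ℝ))) atTop (𝓝 ((K9 + C9 + C4) * 0)) :=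
      hlim0.const_mul _
    rw [mul_zero] at h2
    filter_upwards [h2.eventually (gt_mem_nhds (show (0 : ℝ) < 1 / 4 by norm_num)), eventually_ge_atTop 1]
      with n h3 h4
    have hn0 : (0 : ℝ) < n := by exact_mod_cast h4
    have h5 : (K9 + C9 + C4) * Real.log n = ((K9 + C9 + C4) * (Real.log n / (n : ℝ))) * n := by
      field_simp
    rw [h5]
    gcongr
  have key : ∀ᶠ n : ℕ in atTop, ∀ (α β : ℕ → ℚ) (θ : ℝ),
      (∀ i ∈ ({3, 5, 7} : Finset ℕ), |(α i : ℝ) + θ * (β i : ℝ) - zr i| ≤ Real.exp (-(122 * n))) →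
      DD n α β ≠ 0 →
      Real.log |((DD n α β : ℚ) : ℝ)| ≤ 600 * ((n : ℝ) ^ 2 * Real.log n) + 10137 / 10 * (n : ℝ) ^ 2 +
        T * (n * Real.log n) + 10 * n * Real.log (1 + ∑ r ∈ Finset.Icc 1 8, |(β r : ℝ)|) := by
    filter_upwards [hsup, hpert, eventually_ge_atTop 10] with n hsup hpert hn10 α β θ h hD
    set LS : ℝ := Real.log (1 + ∑ r ∈ Finset.Icc 1 8, |(β r : ℝ)|) with hLS
    have hLS0 : 0 ≤ LS := Real.log_nonneg (by
      have : 0 ≤ ∑ r ∈ Finset.Icc 1 8, |(β r : ℝ)| := Finset.sum_nonneg fun _ _ => abs_nonneg _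
      linarith)
    have hn : 6 ≤ n := by omega
    have hn' := three_le hn
    have hnp : (0 : ℝ) < n := by linarith
    have hl2 : 0 < Real.log 2 := Real.log_pos (by norm_num)
    have hl := log2_le hn
    have hln : 0 < Real.log n := by linarith
    have hlog2n : (1 / 2 : ℝ) ≤ Real.log n := by
      have := Real.log_two_gt_d9
      linarith
    set MM : ℝ := Real.exp (1319 / 20 * n + 60 * n * Real.log n + K1 * Real.log n) with hMM
    have hMM0 : 0 < MM := Real.exp_pos _
    set L : ℕ → ℝ := fun j => Lp n (Finset.range (20 * n - 20)) (20 * (8 * n + 1 + j)) +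
      Lp n (Finset.range (10 * n - 10)) (20 * (8 * n + 1 + j)) with hL
    set b : ℕ → ℝ := fun j => if j < 5 * n - 1 then wv n (8 * n + 1 + j) * Real.exp (L j) + 1001 * MM
      else if j < 10 * n - 10 then 1001 * MM
      else Real.exp (702 / 5 * n + 60 * n * Real.log n + C3 * Real.log n + C2 * Real.log n + LS) with hb
    have hbpos : ∀ j, 0 < b j := by
      intro j
      rw [hb]
      dsimp only
      have := wv_pos n (v := 8 * n + 1 + j) (by omega)
      split_ifs <;> positivity
    -- the matrix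
    have e14 : 2 * (10 * n - 10) = 20 * n - 20 := by omega
    have hinj : Set.InjOn (zq n) (Finset.range (2 * (10 * n - 10))) := by
      rw [e14]
      exact G0z hn
    have h5 := Pool.Agent.LZ.A5_lagrange (AL n α) (BL n β) θ (10 * n - 10) (zq n) hinj
    rw [e14] at h5
    change _ = ((DD n α β : ℚ) : ℝ) ^ 2 * (VD _ _ * VD _ _ * VD _ _) at h5
    set M : Matrix (Fin (20 * n - 20)) (Fin (20 * n - 20)) ℝ := (Matrix.of fun i j : Fin (20 * n - 20) =>
      if j.1 < 10 * n - 10 then
        ((AL n α (lag (Finset.range (20 * n - 20)) (zq n) i.1 * lag (Finset.range (10 * n - 10)) (zq n) j.1) : ℚ) : ℝ) +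
          θ * ((BL n β (lag (Finset.range (20 * n - 20)) (zq n) i.1 * lag (Finset.range (10 * n - 10)) (zq n) j.1) : ℚ) : ℝ)
      else ((BL n β (lag (Finset.range (20 * n - 20)) (zq n) i.1 *
        lag (Finset.Ico (10 * n - 10) (20 * n - 20)) (zq n) j.1) : ℚ) : ℝ)) with hM
    have hentry : ∀ i j : Fin (20 * n - 20), |M i j| ≤ b j := by
      intro i j
      rw [hM, hb]
      simp only [Matrix.of_apply]
      by_cases hj7 : j.1 < 10 * n - 10
      · rw [if_pos hj7]
        have h1 := hSE n hn10 MM hMM0.le hsup i.1 j.1 i.2 hj7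
        have hi' : i.1 ∈ Finset.range (20 * n - 20) := Finset.mem_range.mpr i.2
        have hj' : j.1 ∈ Finset.range (10 * n - 10) := Finset.mem_range.mpr hj7
        have hdeg : (lag (Finset.range (20 * n - 20)) (zq n) i.1 *
            lag (Finset.range (10 * n - 10)) (zq n) j.1).natDegree ≤ 30 * n := by
          refine (Polynomial.natDegree_mul_le).trans ?_
          have h1 := G1.g1_deg_lag n (Finset.range (20 * n - 20)) i.1
          have h2 := G1.g1_deg_lag n (Finset.range (10 * n - 10)) j.1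
          rw [Finset.card_erase_of_mem hi', Finset.card_range] at h1
          rw [Finset.card_erase_of_mem hj', Finset.card_range] at h2
          omega
        have h2 := hSA n hn10 α β θ _ hdeg
        rw [h2]
        have h3 : |∑ r ∈ ({3, 5, 7} : Finset ℕ), ((rho n (PM n * EM n (lag (Finset.range (20 * n - 20)) (zq n) i.1 *
            lag (Finset.range (10 * n - 10)) (zq n) j.1)) r : ℚ) : ℝ) *
            ((α r : ℝ) + θ * (β r : ℝ) - zr r)| ≤ MM := by
          have hrho := hG4 n hn (Finset.range (10 * n - 10)) (Finset.range_subset_range.mpr (by omega)) _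
            (fun u hu => hX n hn u hu) i.1 j.1
          refine (Finset.abs_sum_le_sum_abs _ _).trans ?_
          have h5 : ∀ r ∈ ({3, 5, 7} : Finset ℕ), |((rho n (PM n * EM n (lag (Finset.range (20 * n - 20)) (zq n) i.1 *
            lag (Finset.range (10 * n - 10)) (zq n) j.1)) r : ℚ) : ℝ) *
            ((α r : ℝ) + θ * (β r : ℝ) - zr r)| ≤
              Real.exp (1877 / 10 * n + 60 * n * Real.log n + C9 * Real.log n + C4 * Real.log n) *
                Real.exp (-(122 * n)) := by
            intro r hr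
            rw [abs_mul]
            exact mul_le_mul (hrho r ((by decide : ({3, 5, 7} : Finset ℕ) ⊆ Finset.Icc 1 8) hr)) (h r hr)
              (abs_nonneg _) (Real.exp_pos _).le
          refine (Finset.sum_le_sum h5).trans ?_
          rw [Finset.sum_const]
          have hcard : ({3, 5, 7} : Finset ℕ).card = 3 := by decide
          rw [hcard, nsmul_eq_mul, ← Real.exp_add]
          have e4 : ((3 : ℕ) : ℝ) = Real.exp (Real.log 3) := by
            rw [Real.exp_log (by norm_num)]
            norm_num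
          rw [e4, ← Real.exp_add, hMM]
          apply Real.exp_le_exp.2
          have h44 := h3 n hn
          have hK1l : 0 ≤ K1 * Real.log n := by positivity
          linarith
        have h6 := abs_add_le (sv n (lag (Finset.range (20 * n - 20)) (zq n) i.1 *
            lag (Finset.range (10 * n - 10)) (zq n) j.1)) (∑ r ∈ ({3, 5, 7} : Finset ℕ),
            ((rho n (PM n * EM n (lag (Finset.range (20 * n - 20)) (zq n) i.1 *
            lag (Finset.range (10 * n - 10)) (zq n) j.1)) r : ℚ) : ℝ) *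
            ((α r : ℝ) + θ * (β r : ℝ) - zr r))
        refine h6.trans ?_
        by_cases hj2 : j.1 < 5 * n - 1
        · rw [if_pos hj2]
          rw [if_pos hj2] at h1
          rw [hL]
          dsimp only
          linarith
        · rw [if_neg hj2, if_pos hj7]
          rw [if_neg hj2, zero_add] at h1
          linarith
      · rw [if_neg hj7, if_neg (by omega), if_neg hj7]
        exact hG2 n hn β (Finset.Ico (10 * n - 10) (20 * n - 20))
          (fun i hi => Finset.mem_range.mpr (Finset.mem_Ico.mp hi).2) _ (fun u hu => hY n hn u hu) i.1 j.1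
    have hdet := Pool.Agent.LZ.A6_det_le (20 * n - 20) M b (fun j => (hbpos j).le) hentry
    -- logarithms
    have hDr : ((DD n α β : ℚ) : ℝ) ≠ 0 := by exact_mod_cast hD
    have v1 := VD_pos G0z hn (s := Finset.range (20 * n - 20)) (Finset.Subset.refl _)
    have v2 := VD_pos G0z hn (s := Finset.range (10 * n - 10))
      (Finset.range_subset_range.mpr (by omega))
    have v3 := VD_pos G0z hn (s := Finset.Ico (10 * n - 10) (20 * n - 20))
      (fun i hi => Finset.mem_range.mpr (Finset.mem_Ico.mp hi).2)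
    have hM0 : M.det ≠ 0 := by
      intro h0
      rw [h0] at h5
      have : (0 : ℝ) < ((DD n α β : ℚ) : ℝ) ^ 2 *
        (VD (Finset.range (20 * n - 20)) (zq n) * VD (Finset.range (10 * n - 10)) (zq n) *
          VD (Finset.Ico (10 * n - 10) (20 * n - 20)) (zq n)) := by positivity
      rw [← h5] at this
      norm_num at this
    have hlog1 : 2 * Real.log |M.det| = 2 * Real.log |((DD n α β : ℚ) : ℝ)| +
        (Real.log (VD (Finset.range (20 * n - 20)) (zq n)) + Real.log (VD (Finset.range (10 * n - 10)) (zq n)) +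
          Real.log (VD (Finset.Ico (10 * n - 10) (20 * n - 20)) (zq n))) := by
      have := congrArg Real.log h5
      rw [Real.log_pow, Real.log_mul (pow_ne_zero 2 hDr) (by positivity), Real.log_pow,
        Real.log_mul (by positivity) v3.ne', Real.log_mul v1.ne' v2.ne'] at this
      rw [Real.log_abs, Real.log_abs]
      push_cast at this
      exact this
    have hlog2 : Real.log |M.det| ≤ Real.log ((20 * n - 20).factorial : ℝ) +
        ∑ j ∈ Finset.range (20 * n - 20), Real.log (b j) := by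
      rw [← Real.log_prod (fun i _ => (hbpos i).ne'),
        ← Real.log_mul (by positivity) (Finset.prod_pos fun i _ => hbpos i).ne']
      exact Real.log_le_log (abs_pos.mpr hM0) hdet
    have hcross := G6c hn
    have hfac := logfac hn
    have h1000n := h1000 n hn
    have h2000n := h2000 n hn
    -- the three ranges
    have hb1 : ∀ j ∈ Finset.range (5 * n - 1), Real.log (b j) ≤ Real.log (wv n (8 * n + 1 + j)) + L j +
        (3 / 20 * (n : ℝ) + (K1 + K2 + K8) * Real.log n) := by
      intro j hj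
      rw [Finset.mem_range] at hj
      have hlo := hlow n hn (8 * n + 1 + j) (by omega) (by omega)
      rw [hb]
      dsimp only
      rw [if_pos hj]
      have hLe : Lp n (Finset.range (20 * n - 20)) (20 * ((8 * n + 1 + j : ℕ) : ℤ)) +
          Lp n (Finset.range (10 * n - 10)) (20 * ((8 * n + 1 + j : ℕ) : ℤ)) = L j := by
        rw [hL]
        push_cast
        rfl
      rw [hLe] at hlo
      have hW := wv_pos n (v := 8 * n + 1 + j) (by omega)
      have e1 : wv n (8 * n + 1 + j) * Real.exp (L j) = Real.exp (Real.log (wv n (8 * n + 1 + j)) + L j) := by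
        rw [Real.exp_add (Real.log (wv n (8 * n + 1 + j))) (L j), Real.exp_log hW]
      set A : ℝ := Real.log (wv n (8 * n + 1 + j)) + L j with hA
      set R : ℝ := 3 / 20 * (n : ℝ) + (K1 + K2) * Real.log n with hR
      have hR0 : 0 ≤ R := by rw [hR]; positivity
      have e2 : MM ≤ Real.exp (A + R) := by
        rw [hMM]
        apply Real.exp_le_exp.mpr
        rw [hR]
        linarith
      have e3 : Real.exp A ≤ Real.exp (A + R) := Real.exp_le_exp.mpr (by linarith)
      have e4 : wv n (8 * n + 1 + j) * Real.exp (L j) + 1001 * MM ≤ 2000 * Real.exp (A + R) := by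
        rw [e1]
        have := Real.exp_pos (A + R)
        linarith
      calc Real.log (wv n (8 * n + 1 + j) * Real.exp (L j) + 1001 * MM) ≤ Real.log (2000 * Real.exp (A + R)) :=
            Real.log_le_log (by positivity) e4
        _ = Real.log 2000 + (A + R) := by
            rw [Real.log_mul (by norm_num) (Real.exp_pos _).ne', Real.log_exp]
        _ ≤ _ := by
            rw [hR]
            linarith
    have hb2 : ∀ j ∈ Finset.Ico (5 * n - 1) (10 * n - 10), Real.log (b j) ≤
        1319 / 20 * n + 60 * n * Real.log n + (K7 + K1) * Real.log n := by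
      intro j hj
      rw [Finset.mem_Ico] at hj
      rw [hb]
      dsimp only
      rw [if_neg (by omega), if_pos hj.2, Real.log_mul (by norm_num) hMM0.ne', hMM, Real.log_exp]
      linarith
    have hb3 : ∀ j ∈ Finset.Ico (10 * n - 10) (20 * n - 20), Real.log (b j) ≤
        702 / 5 * n + 60 * n * Real.log n + (C3 + C2) * Real.log n + LS := by
      intro j hj
      rw [Finset.mem_Ico] at hj
      rw [hb]
      dsimp only
      rw [if_neg (by omega), if_neg (by omega), Real.log_exp]
      linarith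
    have hs1 := Finset.sum_le_sum hb1
    have hs2 := Finset.sum_le_sum hb2
    have hs3 := Finset.sum_le_sum hb3
    rw [Finset.sum_add_distrib, Finset.sum_const, Finset.card_range, nsmul_eq_mul] at hs1
    rw [Finset.sum_const, Nat.card_Ico, nsmul_eq_mul] at hs2 hs3
    have c1 : ((5 * n - 1 : ℕ) : ℝ) ≤ 5 * n := by
      have : ((5 * n - 1 : ℕ) : ℝ) ≤ ((5 * n : ℕ) : ℝ) := by exact_mod_cast (by omega : 5 * n - 1 ≤ 5 * n)
      push_cast at this
      exact this
    have c2 : ((10 * n - 10 - (5 * n - 1) : ℕ) : ℝ) ≤ 5 * n := by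
      have : ((10 * n - 10 - (5 * n - 1) : ℕ) : ℝ) ≤ ((5 * n : ℕ) : ℝ) := by
        exact_mod_cast (by omega : 10 * n - 10 - (5 * n - 1) ≤ 5 * n)
      push_cast at this
      exact this
    have c3 : ((20 * n - 20 - (10 * n - 10) : ℕ) : ℝ) ≤ 10 * n := by
      have : ((20 * n - 20 - (10 * n - 10) : ℕ) : ℝ) ≤ ((10 * n : ℕ) : ℝ) := by
        exact_mod_cast (by omega : 20 * n - 20 - (10 * n - 10) ≤ 10 * n)
      push_cast at this
      exact this
    have m1 := mul_le_mul_of_nonneg_right c1
      (show 0 ≤ 3 / 20 * (n : ℝ) + (K1 + K2 + K8) * Real.log n by positivity)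
    have m2 := mul_le_mul_of_nonneg_right c2
      (show 0 ≤ 1319 / 20 * (n : ℝ) + 60 * n * Real.log n + (K7 + K1) * Real.log n by positivity)
    have m3 := mul_le_mul_of_nonneg_right c3
      (show 0 ≤ 702 / 5 * (n : ℝ) + 60 * n * Real.log n + (C3 + C2) * Real.log n + LS by positivity)
    have hsplit : ∑ j ∈ Finset.range (20 * n - 20), Real.log (b j) =
        ∑ j ∈ Finset.range (5 * n - 1), Real.log (b j) + ∑ j ∈ Finset.Ico (5 * n - 1) (10 * n - 10), Real.log (b j) +
          ∑ j ∈ Finset.Ico (10 * n - 10) (20 * n - 20), Real.log (b j) := by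
      rw [Finset.sum_range_add_sum_Ico _ (by omega), Finset.sum_range_add_sum_Ico _ (by omega)]
    -- energies
    have hSn := hS n hn
    have hE1 := energy hC6 hn (hG6 n hn) 5 10 5 20 (by norm_num) (by norm_num) (by norm_num) (by norm_num)
    have hE2 := energy hC6 hn (hG6 n hn) 10 20 10 20 (by norm_num) (by norm_num) (by norm_num) (by norm_num)
    have hE1' := energy1 G0X G0Y hn
    rw [energy2 hn] at hE2
    have hcr1 : ∑ i ∈ Finset.range (5 * n - 1), (Lp n (Finset.range (20 * n - 20)) (nd n i) +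
        Lp n (Finset.range (10 * n - 10)) (nd n i) - Lp n (Finset.range (5 * n - 1)) (nd n i)) =
        ∑ i ∈ Finset.range (5 * n - 1), (Real.log (wv n (8 * n + 1 + i)) + L i) -
        ∑ i ∈ Finset.range (5 * n - 1), (Real.log (wv n (8 * n + 1 + i)) +
          Lp n (Finset.range (5 * n - 1)) (20 * (8 * n + 1 + i))) := by
      rw [← Finset.sum_sub_distrib]
      apply Finset.sum_congr rfl
      intro i hi
      rw [nd_sat (Finset.mem_range.mp hi), hL]
      dsimp only
      ring
    rw [hcr1] at hcross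
    have heN : eN = ∑ g ∈ Finset.Ico 5 10, ∑ h ∈ Finset.Ico 5 20, en g h +
        ∑ g ∈ Finset.Ico 10 20, ∑ h ∈ Finset.Ico 10 20, en g h := by
      unfold eN
      rw [← Finset.sum_add_distrib]
      congr 1
      apply Finset.sum_congr rfl
      intro g _
      rw [Finset.sum_Ico_consecutive _ (by norm_num) (by norm_num)]
    have hV4 : eS * (n : ℝ) ^ 2 ≤ -(1963 / 10) * (n : ℝ) ^ 2 :=
      mul_le_mul_of_nonneg_right V4_eS (by positivity)
    have hV5 : 5245 / 10 * (n : ℝ) ^ 2 ≤ eN * (n : ℝ) ^ 2 :=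
      mul_le_mul_of_nonneg_right V5_eN (by positivity)
    rw [heN, add_mul] at hV5
    rw [hsplit] at hlog2
    norm_num at hE1 hE2
    have h80 : 80 * (n : ℝ) * Real.log (80 * n) ≤ 640 * (n * Real.log n) := by
      have := log_pow_mul (x := 80 * (n : ℝ)) (y := n) 7 (by linarith) hnp hl (by linarith)
      push_cast at this
      have h6 : Real.log (80 * (n : ℝ)) ≤ 8 * Real.log n := by linarith
      calc 80 * (n : ℝ) * Real.log (80 * n) ≤ 80 * n * (8 * Real.log n) := by gcongr
        _ = _ := by ring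
    have t1 : 5 * (n : ℝ) * (3 / 20 * (n : ℝ) + (K1 + K2 + K8) * Real.log n) =
      3 / 4 * (n : ℝ) ^ 2 + 5 * (K1 + K2 + K8) * (n * Real.log n) := by ring
    have t2 : 5 * (n : ℝ) * (1319 / 20 * n + 60 * n * Real.log n + (K7 + K1) * Real.log n) =
      1319 / 4 * (n : ℝ) ^ 2 + 300 * ((n : ℝ) ^ 2 * Real.log n) + 5 * (K7 + K1) * (n * Real.log n) := by ring
    have t3 : 10 * (n : ℝ) * (702 / 5 * n + 60 * n * Real.log n + (C3 + C2) * Real.log n + LS) =
      1404 * (n : ℝ) ^ 2 + 600 * ((n : ℝ) ^ 2 * Real.log n) + 10 * (C3 + C2) * (n * Real.log n) +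
        10 * n * LS := by ring
    have t4 : 20 * (n : ℝ) * (6 * Real.log n) = 120 * (n * Real.log n) := by ring
    have t5 : T * (n * Real.log n) = 120 * (n * Real.log n) + 640 * (n * Real.log n) +
      5 * (K1 + K2 + K8) * (n * Real.log n) +
      5 * (K7 + K1) * (n * Real.log n) + 10 * (C3 + C2) * (n * Real.log n) + C5 * n * Real.log n +
      800 * (C6 * n * Real.log n) + 1280 * (n * Real.log n) := by rw [hT]; ring
    have t6 : 50 * (n : ℝ) ^ 2 * Real.log n = 50 * ((n : ℝ) ^ 2 * Real.log n) := by ring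
    rw [t1] at m1
    rw [t2] at m2
    rw [t3] at m3
    rw [t4] at hfac
    rw [t6] at hSn
    rw [t5]
    have hn2 : 0 ≤ (n : ℝ) ^ 2 := by positivity
    linarith
  -- conclude
  have hlim : ∀ᶠ n : ℕ in atTop, T * (n * Real.log n) ≤ 1 / 10 * (n : ℝ) ^ 2 := by
    have h2 : Tendsto (fun n : ℕ => T * (Real.log n / (n : ℝ))) atTop (𝓝 (T * 0)) := hlim0.const_mul _
    rw [mul_zero] at h2
    filter_upwards [h2.eventually (gt_mem_nhds (show (0 : ℝ) < 1 / 10 by norm_num)), eventually_ge_atTop 1]
      with n h3 h4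
    have hn0 : (0 : ℝ) < n := by exact_mod_cast h4
    have h5 : T * (n * Real.log n) = (T * (Real.log n / (n : ℝ))) * (n : ℝ) ^ 2 := by
      field_simp
    rw [h5]
    gcongr
  filter_upwards [hlim, key] with n h1 h2 α β θ h hD
  have := h2 α β θ h hD
  linarith


end

end Pool.Agent.Dim7.PD
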