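import Pool.Agent.Dim7.PD.Stmts
import Pool.Agent.Dim7.V2

/-!
# A bound of the potential `FN` on `[-100, 100]`
-/

open Polynomial Pool.Agent.H337R2

namespace Pool.Agent.Dim7.PD

noncomputable section

/-- the integer bound -/
def FX_A : ℤ := 50127 * 10 ^ 9 * 760040182440

/-- the certificate -/
lemma FX_chk : V2.chkB 1 (ngl V2.vl) FX_A (-100) [-80, -78, -67, -58, -50, -43, -35, -19, -10, -5,
    -1, 3, 7, 14, 27, 35, 43, 50, 58, 67, 78, 80, 100] = true := by decide +kernel

lemma FX_EF (w : ℝ) (h0 : -100 ≤ w) (h1 : w ≤ 100) :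
    EF 760040182440 1 (ngl V2.vl) w ≤ 50127 / 1000 := by
  have h := V2.chkB_spec (Dc := 760040182440) (M := 1) (l := ngl V2.vl) (A := FX_A) (by norm_num)
    (by norm_num) (by norm_num) (50127 / 1000) (by unfold FX_A; norm_num) [-78, -67, -58, -50, -43,
      -35, -19, -10, -5, -1, 3, 7, 14, 27, 35, 43, 50, 58, 67, 78, 80, 100] (-100) (-80) FX_chk w
    (by push_cast; linarith) (by simp only [V2.lastB]; push_cast; linarith)
  simpa using h

/-- the potential of the zeta part at the poles -/
theorem FN_in : SFX := by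
  intro w h0 h1
  have hE := FX_EF w h0 h1
  rw [EF_neg] at hE
  have l2 := V2.log_up 2 (by norm_num) (by norm_num) 693147180560 (by decide +kernel)
  have l5 := V2.log_up 5 (by norm_num) (by norm_num) 1609437912428 (by decide +kernel)
  have l3 := V2.log_low 3 (by norm_num) (by norm_num) 1098612288761 (by decide +kernel)
  push_cast at l2 l5 l3
  rw [V2.FN_eq]
  linarith

end

end Pool.Agent.Dim7.PD
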