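import Pool.Agent.Dim7.PD.Stmts
import Pool.Agent.Dim7.C1
import Pool.Agent.Dim7.H2
import Pool.Agent.Dim7.H3
import Pool.Agent.Dim7.H4
import Pool.Agent.Dim7.H5
import Pool.Agent.Dim7.H6

/-!
# Non-vanishing of the determinants at prime parameters, uniformly in the numbers

The proof is that of `H6_nonvanish_of` in `Pool/Agent/Dim7/H6.lean`; it only uses that the prime `p` does not
divide the denominators and the coefficient `β 3` (port of `Pool/Agent/TH21/PD9/NV.lean`).
-/

open Polynomial Pool.Agent.H337R2 Pool.Agent.Dim7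

namespace Pool.Agent.Dim7.PD

noncomputable section

namespace NV

lemma UInt_norm (p q : ℕ) (hpp : p.Prime) (hqp : ¬ p ∣ q) (u : ℕ → ℚ) (hu : UInt q u) (i : ℕ) :
    padicNorm p (u i) ≤ 1 := by
  have : Fact p.Prime := ⟨hpp⟩
  have hq0 : 0 < q := hu.1
  obtain ⟨z, hz⟩ := hu.2 i
  have h1 : padicNorm p ((q : ℕ) : ℚ) = 1 := by
    rw [padicNorm.nat_eq_one_iff]
    exact hqp
  have h2 : padicNorm p ((q : ℚ) * u i) ≤ 1 := by
    rw [hz]
    exact padicNorm.of_int z
  rw [padicNorm.mul] at h2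
  rw [h1, one_mul] at h2
  exact h2

end NV

open H6 NV in
/-- non-vanishing at prime parameters, from the parts -/
theorem nonv_of (h3 : St_H3_diag) (h4 : St_H4_offdiag) (h5 : St_H5_local) : SNV := by
  -- bounds on the constants
  obtain ⟨p1, hp1⟩ := Pool.Agent.H336R2.HD.H6_unit _ (h5)
  obtain ⟨p2, hp2⟩ := H6_fin_int Fm 59
  obtain ⟨p3, hp3⟩ := H6_fin_int (Bm 3) 59
  refine ⟨p1 + p2 + p3 + 200, fun p hp hpp α β q hα hβ hpq hβ0 hβ1 => ?_⟩
  have : Fact p.Prime := ⟨hpp⟩
  have hp200 : 200 ≤ p := by omega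
  have hodd : p % 2 = 1 := by
    rcases hpp.eq_two_or_odd with h | h
    · omega
    · exact h
  have hαp : ∀ i, padicNorm p (α i) ≤ 1 := UInt_norm p q hpp hpq α hα
  have hβp : ∀ i, padicNorm p (β i) ≤ 1 := UInt_norm p q hpp hpq β hβ
  set h := (p - 1) / 2 with hh
  have hph : p = 2 * h + 1 := by omega
  have hp0 : (p : ℚ) ≠ 0 := by exact_mod_cast hpp.ne_zero
  -- choose the units
  have hw : ∀ r : Fin h, ∃ w : ℚ, padicNorm p w = 1 ∧ ∀ e : ℕ, e ≤ 58 →
      padicNorm p ((p : ℚ) ^ (-(e : ℤ)) * AL p α (XN p (r.1 + 1) ^ e * OT p (r.1 + 1) 60) -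
        w * (-2 * ((r.1 + 1 : ℕ) : ℚ)) ^ e * Fm e) ≤ (p : ℚ)⁻¹ ∧
      padicNorm p ((p : ℚ) ^ (-(e : ℤ) - 3) * BL p β (XN p (r.1 + 1) ^ e * OT p (r.1 + 1) 60) -
        w * (-2 * ((r.1 + 1 : ℕ) : ℚ)) ^ e * (β 3 * Bm 3 e)) ≤ (p : ℚ)⁻¹ := by
    intro r
    have hr := r.2
    exact h3 hp200 α β hαp hβp hβ0 (r.1 + 1) (by omega) (by omega)
  choose w hw1 hw2 using hw
  have hunit : ∀ r : Fin h, padicNorm p (-2 * ((r.1 + 1 : ℕ) : ℚ)) = 1 := by
    intro r
    have hr := r.2
    have h3 : (-2 * ((r.1 + 1 : ℕ) : ℚ)) = ((-(2 * (r.1 + 1) : ℕ) : ℤ) : ℚ) := by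
      push_cast
      ring
    rw [h3, padicNorm.int_eq_one_iff]
    intro h4
    rw [Int.dvd_neg, Int.natCast_dvd_natCast] at h4
    have := Nat.le_of_dvd (by omega) h4
    omega
  -- the Gram matrix
  set Q : Fin 40 × Fin h → ℚ[X] := fun a => H6_P p (a.2.1 + 1) 40 a.1.1 with hQ
  set P : Fin 20 × Fin h → ℚ[X] := fun c => H6_P p (c.2.1 + 1) 20 c.1.1 with hP
  set G : Matrix (Fin 40 × Fin h) (Fin 40 × Fin h) ℚ :=
    Matrix.of fun r s => Sum.elim (fun c => AL p α (Q r * P c)) (fun c => BL p β (Q r * P c))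
      (H6_e h s) with hG
  have key : G.det ≠ 0 := by
    set c : Fin 40 × Fin h → ℚ := fun a => (p : ℚ) ^ (-(a.1.1 : ℤ)) with hc
    set d : Fin 40 × Fin h → ℚ := fun a =>
      if a.1.1 < 20 then (p : ℚ) ^ (-(a.1.1 : ℤ)) else (p : ℚ) ^ (-((a.1.1 - 20 : ℕ) : ℤ) - 3) with hd
    set M : Matrix (Fin 40 × Fin h) (Fin 40 × Fin h) ℚ :=
      Matrix.of fun a b => c a * d b * G a b with hM
    set Bl : Fin h → Matrix (Fin 40) (Fin 40) ℚ := fun r =>
      Matrix.of fun l l' => if l'.1 < 20 then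
          w r * (-2 * ((r.1 + 1 : ℕ) : ℚ)) ^ (l.1 + l'.1) * Fm (l.1 + l'.1)
        else w r * (-2 * ((r.1 + 1 : ℕ) : ℚ)) ^ (l.1 + (l'.1 - 20)) * (β 3 * Bm 3 (l.1 + (l'.1 - 20)))
      with hBl
    have hM0 : M.det ≠ 0 := by
      apply Pool.Agent.H336R2.HD.A6_det_congr p M (Matrix.blockDiagonal Bl)
      · intro a b
        rw [Matrix.blockDiagonal_apply]
        split_ifs with hab
        · simp only [hBl, Matrix.of_apply]
          have ha := a.1.2
          have hb := b.1.2
          split_ifs with hl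
          · have h1 : padicNorm p (Fm (a.1.1 + b.1.1)) ≤ 1 :=
              hp2 _ (Finset.mem_range.2 (by omega)) p (by omega) hpp
            rw [padicNorm.mul, padicNorm.mul, hw1, one_mul, H6_norm_pow p _ (hunit a.2), one_mul]
            exact h1
          · have h1 : padicNorm p (Bm 3 (a.1.1 + (b.1.1 - 20))) ≤ 1 :=
              hp3 _ (Finset.mem_range.2 (by omega)) p (by omega) hpp
            rw [padicNorm.mul, padicNorm.mul, hw1, one_mul, H6_norm_pow p _ (hunit a.2), one_mul,
              padicNorm.mul]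
            exact mul_le_one₀ (hβp 3) (padicNorm.nonneg _) h1
        · simp
      · intro a b
        rw [Matrix.blockDiagonal_apply]
        have ha := a.1.2
        have hb := b.1.2
        have ha2 := a.2.2
        have hb2 := b.2.2
        by_cases hl : b.1.1 < 20
        · have hMab : M a b = (p : ℚ) ^ (-(a.1.1 : ℤ) - (b.1.1 : ℤ)) *
              AL p α (H6_P p (a.2.1 + 1) 40 a.1.1 * H6_P p (b.2.1 + 1) 20 b.1.1) := by
            simp only [hM, hG, Matrix.of_apply, hc, hd, if_pos hl, H6_e_lt h b hl, Sum.elim_inl, hQ, hP]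
            rw [← zpow_add₀ hp0]
            rfl
          split_ifs with hab
          · rw [hMab, ← hab, H6_P_mul]
            have h1 := (hw2 a.2 (a.1.1 + b.1.1) (by omega)).1
            have h2 : (-((a.1.1 + b.1.1 : ℕ) : ℤ)) = -(a.1.1 : ℤ) - (b.1.1 : ℤ) := by
              push_cast
              ring
            rw [h2] at h1
            simp only [hBl, Matrix.of_apply, if_pos hl]
            exact h1
          · rw [hMab, sub_zero]
            refine (h4 hp200 α β hαp hβp hβ0 (a.2.1 + 1) (b.2.1 + 1) a.1.1 b.1.1 (by omega)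
              (by omega) (by omega) (by omega) ?_ ha hl).1
            intro h1
            apply hab
            ext
            omega
        · have hMab : M a b = (p : ℚ) ^ (-(a.1.1 : ℤ) - ((b.1.1 - 20 : ℕ) : ℤ) - 3) *
              BL p β (H6_P p (a.2.1 + 1) 40 a.1.1 * H6_P p (b.2.1 + 1) 20 (b.1.1 - 20)) := by
            simp only [hM, hG, Matrix.of_apply, hc, hd, if_neg hl, H6_e_ge h b hl, Sum.elim_inr, hQ, hP]
            rw [← zpow_add₀ hp0]
            congr 2
            ring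
          split_ifs with hab
          · rw [hMab, ← hab, H6_P_mul]
            have h1 := (hw2 a.2 (a.1.1 + (b.1.1 - 20)) (by omega)).2
            have h2 : (-((a.1.1 + (b.1.1 - 20) : ℕ) : ℤ)) - 3 =
                -(a.1.1 : ℤ) - ((b.1.1 - 20 : ℕ) : ℤ) - 3 := by
              push_cast
              ring
            rw [h2] at h1
            simp only [hBl, Matrix.of_apply, if_neg hl]
            exact h1
          · rw [hMab, sub_zero]
            refine (h4 hp200 α β hαp hβp hβ0 (a.2.1 + 1) (b.2.1 + 1) a.1.1 (b.1.1 - 20)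
              (by omega) (by omega) (by omega) (by omega) ?_ ha (by omega)).2
            intro h1
            apply hab
            ext
            omega
      · rw [Matrix.det_blockDiagonal]
        apply H6_norm_prod p
        intro r
        have h1 : Bl r = Matrix.of fun l l' => (w r) *
            (Matrix.of fun l l' : Fin 40 => ((-2 * ((r.1 + 1 : ℕ) : ℚ)) ^ l.1) *
              (if l'.1 < 20 then (-2 * ((r.1 + 1 : ℕ) : ℚ)) ^ l'.1
                else (-2 * ((r.1 + 1 : ℕ) : ℚ)) ^ (l'.1 - 20) * β 3) *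
              (Matrix.of fun l l' : Fin 40 => if l'.1 < 20 then Fm (l.1 + l'.1)
                else Bm 3 (l.1 + (l'.1 - 20))) l l') l l' := by
          ext l l'
          simp only [hBl, Matrix.of_apply]
          split_ifs <;> ring
        rw [h1, Matrix.det_mul_column (fun _ => w r), H6_det_scale (fun l : Fin 40 =>
          ((-2 * ((r.1 + 1 : ℕ) : ℚ)) ^ l.1)) (fun l' : Fin 40 =>
          (if l'.1 < 20 then (-2 * ((r.1 + 1 : ℕ) : ℚ)) ^ l'.1
                else (-2 * ((r.1 + 1 : ℕ) : ℚ)) ^ (l'.1 - 20) * β 3))]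
        have h5 : ∀ i : Fin 40, padicNorm p ((-2 * ((r.1 + 1 : ℕ) : ℚ)) ^ i.1) = 1 := fun i =>
          H6_norm_pow p _ (hunit r) _
        have h6 : ∀ i : Fin 40, padicNorm p (if i.1 < 20 then (-2 * ((r.1 + 1 : ℕ) : ℚ)) ^ i.1
                else (-2 * ((r.1 + 1 : ℕ) : ℚ)) ^ (i.1 - 20) * β 3) = 1 := by
          intro i
          split_ifs
          · exact h5 i
          · rw [padicNorm.mul, H6_norm_pow p _ (hunit r), hβ1, one_mul]
        rw [padicNorm.mul, padicNorm.mul, padicNorm.mul, H6_norm_prod p _ (fun _ => hw1 r),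
          H6_norm_prod p _ h5, H6_norm_prod p _ h6, hp1 p (by omega) hpp]
        norm_num
    intro h0
    apply hM0
    rw [hM, H6_det_scale, h0, mul_zero, mul_zero]
  -- conclusion
  have hm : 10 * p - 10 = 20 * h := by omega
  unfold DD
  rw [hm]
  refine Pool.Agent.H574R2.D3.A2_MD_ne (AL p α) (BL p β) (20 * h) (H6_e h) ?_ ?_ Q P ?_ ?_ key
  · simp only [Fintype.card_prod, Fintype.card_fin]
    omega
  · simp only [Fintype.card_prod, Fintype.card_fin]
  · intro a
    have ha := a.1.2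
    have ha2 := a.2.2
    have := H6_P_natDegree p (a.2.1 + 1) 40 a.1.1 (by omega) (by omega) ha hodd
    rw [← hh] at this
    rw [hQ]
    refine this.trans_le ?_
    omega
  · intro a
    have ha := a.1.2
    have ha2 := a.2.2
    have := H6_P_natDegree p (a.2.1 + 1) 20 a.1.1 (by omega) (by omega) ha hodd
    rw [← hh] at this
    rw [hP]
    exact this


/-- **non-vanishing**, uniform -/
theorem nonv : SNV := nonv_of (H3_diag_of C1_pa H2_pa) (H4_offdiag_of C1_pa) H5_local

end

end Pool.Agent.Dim7.PD
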