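import Pool.Agent.Dim7.PD.Stmts
import Pool.Agent.Dim7.Main

/-!
# PU: the p-adic part, uniformly in the numbers

Port of `Pool/Agent/TH21/PD9/PU.lean` (helper21): `P_unif` is `P_main` of `Pool/Agent/Dim7/` with a threshold
for `n` independent of `q, α, β` and the constant `-1016.8`; the proof is the one of `Dim7/PM.lean`.
-/

open Polynomial Pool.Agent.H337R2 Filter Topology

namespace Pool.Agent.Dim7.PD

noncomputable section

lemma log5' : 339 * Real.log 2 ≤ 146 * Real.log 5 := by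
  have h1 : Real.log (((2 : ℝ) ^ 113) ^ 3) ≤ Real.log (((5 : ℝ) ^ 73) ^ 2) :=
    Real.log_le_log (by positivity) (by norm_num)
  rw [Real.log_pow, Real.log_pow, Real.log_pow, Real.log_pow] at h1
  push_cast at h1
  linarith

/-- the p-adic part, with a threshold which does not depend on the numbers -/
theorem P_unif_of (hmed : St_D4_small_med) (hcrude : St_D4_small_crude) (hE4 : St_E4_padic) (hA : St_F2_A)
    (hB : St_F2_B) (hU : St_F2_U) (h3 : St_F3_numeric) (h4 : St_F4_small) (h5 : St_F5_fact)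
    (h6 : St_F6_superfac) : SPU := by
  classical
  obtain ⟨K0, hK0, hE4'⟩ := hE4
  have hF3 : ((LA : ℝ) + LB + LU) ≤ 24285 / 100 := by
    have h := (Rat.cast_le (K := ℝ)).2 h3
    push_cast at h
    exact h
  have hε : (0 : ℝ) < 1 / 200 := by norm_num
  have ev2 := PM.ev hA (1 / 200) hε
  have ev3 := PM.ev hB (1 / 200) hε
  have ev5 := PM.ev hU (1 / 200) hε
  have ev6 := h4 (1 / 200) hε
  have ev8 := h6 (1 / 200) hε
  have ev9 : ∀ᶠ n : ℕ in atTop, K0 * (Real.log 4 * 10) ≤ 1 / 200 * n := by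
    have := (tendsto_natCast_atTop_atTop (R := ℝ)).const_mul_atTop hε
    exact this.eventually_ge_atTop _
  filter_upwards [ev2, ev3, ev5, ev6, h5, ev8, ev9, eventually_ge_atTop 120000]
    with n g2 g3 g5 g6 g7 g8 g9 hn q α β hα hβ hβ3 hD
  have hn0 : (0 : ℝ) < n := by exact_mod_cast (by omega : 0 < n)
  have hn1 : 1 ≤ n := by omega
  have hqq : (0 : ℚ) < q := by exact_mod_cast hα.1
  have hz : (q : ℚ) ^ (20 * n - 20) * DD n α β ≠ 0 := mul_ne_zero (pow_pos hqq _).ne' hD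
  rw [← Finset.sum_filter_add_sum_filter_not _ (fun p => 50 * p ≤ n)]
  have e1 : ((Finset.range (40 * n + 1)).filter Nat.Prime).filter (fun p => 50 * p ≤ n) =
      (Finset.range (n + 1)).filter (fun p : ℕ => p.Prime ∧ 50 * p ≤ n) := by
    ext p
    simp only [Finset.mem_filter, Finset.mem_range]
    constructor
    · rintro ⟨⟨h1, h2⟩, h3⟩; exact ⟨by omega, h2, h3⟩
    · rintro ⟨h1, h2, h3⟩; exact ⟨⟨by omega, h2⟩, h3⟩
  rw [e1]
  have hsmall : ∑ p ∈ (Finset.range (n + 1)).filter (fun p : ℕ => p.Prime ∧ 50 * p ≤ n),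
      Real.log ((padicNorm p ((q : ℚ) ^ (20 * n - 20) * DD n α β) : ℚ) : ℝ) ≤
      20 * (n : ℝ) * (∑ p ∈ (Finset.range (n + 1)).filter (fun p : ℕ => p.Prime ∧ p ^ 2 ≤ 40 * n),
        40 * Real.log (40 * n + 1) +
      ∑ p ∈ (Finset.range (n + 1)).filter (fun p : ℕ => p.Prime ∧ 50 * p ≤ n), 8 * Real.log p) +
      ∑ p ∈ (Finset.range (n + 1)).filter (fun p : ℕ => p.Prime ∧ 50 * p ≤ n),
      (∑ i ∈ Finset.range (20 * n - 20), Real.log ((padicNorm p (((2 * i - 1).factorial : ℕ) : ℚ) : ℚ) : ℝ) +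
       2 * ∑ i ∈ Finset.range (10 * n - 10), Real.log ((padicNorm p (((2 * i - 1).factorial : ℕ) : ℚ) : ℚ) : ℝ)) := by
    calc _ ≤ ∑ p ∈ (Finset.range (n + 1)).filter (fun p : ℕ => p.Prime ∧ 50 * p ≤ n),
          (20 * (n : ℝ) * ((if p ^ 2 ≤ 40 * n then 40 * Real.log (40 * n + 1) else 0) + 8 * Real.log p) +
          (∑ i ∈ Finset.range (20 * n - 20), Real.log ((padicNorm p (((2 * i - 1).factorial : ℕ) : ℚ) : ℚ) : ℝ) +
       2 * ∑ i ∈ Finset.range (10 * n - 10), Real.log ((padicNorm p (((2 * i - 1).factorial : ℕ) : ℚ) : ℚ) : ℝ))) := by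
          apply Finset.sum_le_sum
          intro p hp
          rw [Finset.mem_filter] at hp
          exact PM.small hmed hcrude n p hn1 hp.2.1 q α β hα hβ hβ3 hz
      _ ≤ _ := by
          rw [Finset.sum_add_distrib, ← Finset.mul_sum, Finset.sum_add_distrib]
          apply add_le_add_left
          apply mul_le_mul_of_nonneg_left _ (by positivity)
          apply add_le_add_left
          rw [← Finset.sum_filter]
          apply Finset.sum_le_sum_of_subset_of_nonneg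
          · intro p hp
            simp only [Finset.mem_filter, Finset.mem_range] at hp ⊢
            exact ⟨hp.1.1, hp.1.2.1, hp.2⟩
          · intro p _ _
            have : 0 ≤ Real.log (40 * (n : ℝ) + 1) := Real.log_nonneg (by linarith)
            positivity
  have hlarge : ∑ p ∈ ((Finset.range (40 * n + 1)).filter Nat.Prime).filter (fun p => ¬ 50 * p ≤ n),
      Real.log ((padicNorm p ((q : ℚ) ^ (20 * n - 20) * DD n α β) : ℚ) : ℝ) ≤
      ∑ p ∈ PS (1 / 50) 4 n, EA n p * Real.log p + ∑ p ∈ PS 4 10 n, EB n p * Real.log p +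
        K0 * (Real.log 4 * (10 * n)) := by
    refine le_trans ?_ (PM.EW_split n (by omega) K0 hK0)
    have h1 : ∑ p ∈ ((Finset.range (40 * n + 1)).filter Nat.Prime).filter (fun p => ¬ 50 * p ≤ n),
        Real.log ((padicNorm p ((q : ℚ) ^ (20 * n - 20) * DD n α β) : ℚ) : ℝ) ≤
        ∑ p ∈ ((Finset.range (40 * n + 1)).filter Nat.Prime).filter (fun p => ¬ 50 * p ≤ n),
        (if p < 10 * n then (EW n p + K0) * Real.log p else 0) := by
      apply Finset.sum_le_sum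
      intro p hp
      rw [Finset.mem_filter, Finset.mem_filter] at hp
      exact PM.log_large K0 hE4' n hn p hp.1.2 hp.2 q α β hα hβ hβ3 hz
    refine h1.trans (le_of_eq ?_)
    rw [← Finset.sum_filter]
    apply Finset.sum_congr _ fun _ _ => rfl
    ext p
    simp only [Finset.mem_filter, Finset.mem_range]
    constructor
    · rintro ⟨⟨⟨h1, h2⟩, h3⟩, h4⟩; exact ⟨⟨h4, h2⟩, h3⟩
    · rintro ⟨⟨h1, h2⟩, h3⟩; exact ⟨⟨⟨by omega, h2⟩, h3⟩, h1⟩
  have hfin : K0 * (Real.log 4 * (10 * n)) ≤ 1 / 200 * (n : ℝ) ^ 2 := by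
    have := mul_le_mul_of_nonneg_right g9 hn0.le
    nlinarith
  have hn2 : (0 : ℝ) < (n : ℝ) ^ 2 := by positivity
  have h200 : Real.log 200 = 3 * Real.log 2 + 2 * Real.log 5 := by
    rw [show (200 : ℝ) = 2 ^ 3 * 5 ^ 2 by norm_num, Real.log_mul (by norm_num) (by norm_num),
      Real.log_pow, Real.log_pow]
    push_cast; ring
  rw [h200] at g2
  have hl2 := Real.log_two_gt_d9
  have hl5 := log5'
  have hconst : (16 / 5 + 900 + ((LA : ℝ) + LB + LU) - 1650 * Real.log 2 - 1900 / 3 * Real.log 5 + 8 / 200) ≤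
      -(10168 / 10) := by
    linarith
  have htot : (16 / 5 + 900 + ((LA : ℝ) + LB + LU) - 1650 * Real.log 2 - 1900 / 3 * Real.log 5 + 8 / 200) *
      (n : ℝ) ^ 2 ≤ -(10168 / 10) * (n : ℝ) ^ 2 := mul_le_mul_of_nonneg_right hconst hn2.le
  have g2' : ∑ p ∈ PS (1 / 50) 4 n, EA n p * Real.log p ≤
      (LA : ℝ) * (n : ℝ) ^ 2 - 50 * Real.log 2 * (n : ℝ) ^ 2 - 100 / 3 * Real.log 5 * (n : ℝ) ^ 2 +
        1 / 200 * (n : ℝ) ^ 2 := by
    refine g2.trans (le_of_eq ?_); ring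
  have g3' : ∑ p ∈ PS 4 10 n, EB n p * Real.log p ≤ (LB : ℝ) * (n : ℝ) ^ 2 + 1 / 200 * (n : ℝ) ^ 2 := by
    refine g3.trans (le_of_eq ?_); ring
  have g5' : ∑ p ∈ PS (1 / 50) 40 n,
      (∑ j ∈ Finset.Icc 1 2000, (1 / 2 * tn (40 * n) j p + tn (20 * n) j p)) * Real.log p ≤
      (LU : ℝ) * (n : ℝ) ^ 2 + 1 / 200 * (n : ℝ) ^ 2 := by
    refine g5.trans (le_of_eq ?_); ring
  have g8' : 600 * (n : ℝ) ^ 2 * Real.log n + 1600 * Real.log 2 * (n : ℝ) ^ 2 +
      600 * Real.log 5 * (n : ℝ) ^ 2 - 900 * (n : ℝ) ^ 2 - 1 / 200 * (n : ℝ) ^ 2 ≤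
        ∑ i ∈ Finset.range (20 * n - 20), Real.log ((2 * i - 1).factorial : ℝ) +
         2 * ∑ i ∈ Finset.range (10 * n - 10), Real.log ((2 * i - 1).factorial : ℝ) := by
    refine le_trans (le_of_eq ?_) g8; ring
  have htot' : 4516 / 5 * (n : ℝ) ^ 2 + (LA : ℝ) * (n : ℝ) ^ 2 + (LB : ℝ) * (n : ℝ) ^ 2 +
      (LU : ℝ) * (n : ℝ) ^ 2 - 1650 * Real.log 2 * (n : ℝ) ^ 2 - 1900 / 3 * Real.log 5 * (n : ℝ) ^ 2 +
      8 / 200 * (n : ℝ) ^ 2 ≤ -(10168 / 10) * (n : ℝ) ^ 2 := by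
    refine le_trans (le_of_eq ?_) htot; ring
  have hfinal := add_le_add hsmall hlarge
  refine hfinal.trans ?_
  linarith

/-- **the p-adic part**, uniform in the numbers -/
theorem P_unif : SPU :=
  P_unif_of D4_small_med D4_small_crude E4_padic F2_A F2_B F2_U F3_numeric F4_small F5_fact F6_superfac

end

end Pool.Agent.Dim7.PD
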