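import Pool.Agent.Dim7.PD.Stmts
import Pool.Agent.Dim7.G0
import Pool.Agent.Dim7.G2

/-!
# Bounds of the coefficients of the linear forms (for any family of nodes)

`one_pole` is `G2_one` of `Pool/Agent/Dim7/G2.lean` with an arbitrary family of nodes in the second factor; the file
is a port of `Pool/Agent/TH21/PD9/RH.lean` (helper21).
-/

open Polynomial Pool.Agent.H337R2 Pool.Agent.Dim7.G2

namespace Pool.Agent.Dim7.PD

noncomputable section

namespace RH

/-- one pole, any family of nodes in the second factor -/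
lemma one_pole {n k r : ℕ} (hn : 6 ≤ n) (hinj : Set.InjOn (nd n) (Finset.range (20 * n - 20)))
    (hbd : ∀ i < 20 * n - 20, |nd n i| ≤ 823 * n) (hk : k ∈ sM n) (hr : r ∈ Finset.Icc 1 8)
    (s : Finset ℕ) (hs : s ⊆ Finset.range (20 * n - 20)) (i j : ℕ) :
    |((pa (sM n) mM (PM n * EM n (lag (Finset.range (20 * n - 20)) (zq n) i *
      lag s (zq n) j)) k r : ℚ) : ℝ)| ≤
    Real.exp (n * phi (20 * (((8 * n : ℤ) - k : ℤ) : ℝ) / n) +
      Lp n (Finset.range (20 * n - 20)) (20 * ((8 * n : ℤ) - k)) +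
      Lp n s (20 * ((8 * n : ℤ) - k)) + 1700 * Real.log n) := by
  set Q : ℚ[X] := lag (Finset.range (20 * n - 20)) (zq n) i *
      lag s (zq n) j with hQ
  have hr' := Finset.mem_Icc.1 hr
  have hd : pa (sM n) mM (PM n * EM n Q) k r = pfc (sM n) mM (PM n * EM n Q) k (8 - r) := by
    unfold pa
    rw [if_pos hr'.2]
  rw [hd]
  unfold pfc
  have h0 : |((PowerSeries.coeff (8 - r) (TS (-(k : ℚ)) (PM n * EM n Q) *
      VV ((sM n).erase k) mM (-(k : ℚ))) : ℚ) : ℝ)| ≤
      Real.exp (20 : ℝ) * G2r (TS (-(k : ℚ)) (PM n * EM n Q) * VV ((sM n).erase k) mM (-(k : ℚ))) := by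
    have h1 := Pool.Agent.H574R2.D3.coeff_le_nrm (TS (-(k : ℚ)) (PM n * EM n Q) *
      VV ((sM n).erase k) mM (-(k : ℚ))) (j := 8 - r) (by omega)
    have h2 : ((|PowerSeries.coeff (8 - r) (TS (-(k : ℚ)) (PM n * EM n Q) *
      VV ((sM n).erase k) mM (-(k : ℚ)))| : ℚ) : ℝ) ≤ ((2 ^ 20 * Pool.Agent.H574R2.D3.nrm (TS (-(k : ℚ)) (PM n * EM n Q) *
      VV ((sM n).erase k) mM (-(k : ℚ))) : ℚ) : ℝ) := Rat.cast_le.2 h1
    rw [Rat.cast_abs, Rat.cast_mul] at h2
    refine h2.trans ?_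
    apply mul_le_mul_of_nonneg_right _ (G2r_nonneg _)
    have h3 : (2 : ℝ) ≤ Real.exp 1 := by
      have := Real.add_one_le_exp (1 : ℝ)
      linarith
    have h4 : Real.exp (20 : ℝ) = Real.exp 1 ^ 20 := by
      rw [← Real.exp_nat_mul]
      norm_num
    rw [h4]
    push_cast
    exact pow_le_pow_left₀ (by norm_num) h3 20
  refine h0.trans ?_
  have p1 := G2_const (k := k) hn
  have p2 := G2_linf hn hk
  have p3 := G2_Z hn hk
  have p4 := G2_x34 hn hk
  have p5 := G2_nodes hn hinj hbd hk (Finset.range (20 * n - 20)) (Finset.Subset.refl _) i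
  have p6 := G2_nodes hn hinj hbd hk s hs j
  have p7 := G2_V hn hk
  have hall := G2r_mul_exp (G2r_mul_exp (G2r_mul_exp (G2r_mul_exp p1 p2) p3)
    (G2r_mul_exp p4 (G2r_mul_exp p5 p6))) p7
  have he : TS (-(k : ℚ)) (PM n * EM n Q) = TS (-(k : ℚ)) (C (cM n)) * TS (-(k : ℚ)) (2 * X + C ((16 * n : ℕ) : ℚ)) *
      TS (-(k : ℚ)) (ZM n) * (TS (-(k : ℚ)) (xM n ^ 34) *
      (TS (-(k : ℚ)) ((lag (Finset.range (20 * n - 20)) (zq n) i).comp (xM n)) *
        TS (-(k : ℚ)) ((lag s (zq n) j).comp (xM n)))) := by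
    unfold PM EM
    rw [hQ, Polynomial.mul_comp, Polynomial.mul_comp, Polynomial.X_pow_comp]
    simp only [map_mul]
  rw [← he] at hall
  calc _ ≤ Real.exp (20 : ℝ) * Real.exp _ := mul_le_mul_of_nonneg_left hall (Real.exp_pos _).le
    _ ≤ _ := by
      rw [← Real.exp_add]
      apply Real.exp_le_exp.2
      have h7 := G2_phi7 (by omega : 1 ≤ n) ((8 * n : ℝ) - k)
      have e1 : 8 * (n : ℝ) + ((8 * n : ℝ) - k) = 16 * n - k := by ring
      have e2 : 8 * (n : ℝ) - ((8 * n : ℝ) - k) = k := by ring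
      have e3 : 5 * (n : ℝ) + ((8 * n : ℝ) - k) = 13 * n - k := by ring
      have e4 : 5 * (n : ℝ) - ((8 * n : ℝ) - k) = k - 3 * n := by ring
      have e5 : 4 * (n : ℝ) + ((8 * n : ℝ) - k) = 12 * n - k := by ring
      have e6 : 4 * (n : ℝ) - ((8 * n : ℝ) - k) = k - 4 * n := by ring
      rw [e1, e2, e3, e4, e5, e6] at h7
      have e7 : (((8 * n : ℤ) - k : ℤ) : ℝ) = (8 * n : ℝ) - k := by push_cast; ring
      rw [e7, ← h7]
      have h8 := G2_ln1 hn
      have h9 := G2_ln1000 hn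
      linarith

/-- size of the nodes -/
lemma bd {n : ℕ} (hn : 6 ≤ n) : ∀ i < 20 * n - 20, |nd n i| ≤ 823 * n := by
  intro i hi
  rw [abs_le]
  rcases Nat.lt_or_ge i (5 * n - 1) with h | h
  · have e : nd n i = 20 * (8 * n + 1 + i) := by
      unfold nd
      rw [if_pos h]
    rw [e]
    constructor <;> omega
  · rcases Nat.lt_or_ge i (10 * n - 10) with h2 | h2
    · have := G0_nd_X hn h h2
      constructor <;> omega
    · have := G0_nd_Y hn h2 hi
      constructor <;> omega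

/-- the coefficients -/
lemma rho_le {n : ℕ} (hn : 6 ≤ n) (s : Finset ℕ) (hs : s ⊆ Finset.range (20 * n - 20)) (MX : ℝ)
    (hM : ∀ u : ℤ, |u| ≤ 5 * n → n * phi (20 * (u : ℝ) / n) + Lp n (Finset.range (20 * n - 20)) (20 * u) +
      Lp n s (20 * u) ≤ MX) (i j : ℕ) :
    ∀ r ∈ Finset.Icc 1 8, |((rho n (PM n * EM n (lag (Finset.range (20 * n - 20)) (zq n) i *
      lag s (zq n) j)) r : ℚ) : ℝ)| ≤ Real.exp (MX + 1705 * Real.log n) := by
  set Q : ℚ[X] := lag (Finset.range (20 * n - 20)) (zq n) i *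
      lag s (zq n) j with hQ
  have hln := G2_ln1 hn
  have hln8 := G2_ln1000 hn
  intro r hr
  unfold rho
  rw [Rat.cast_sum]
  refine (Finset.abs_sum_le_sum_abs _ _).trans ?_
  have h2 : ∀ k ∈ sM n, |((pa (sM n) mM (PM n * EM n Q) k r : ℚ) : ℝ)| ≤
      Real.exp (MX + 1700 * Real.log n) := by
    intro k hk
    refine (one_pole hn (G0_nd_inj hn) (bd hn) hk hr s hs i j).trans (Real.exp_le_exp.2 ?_)
    obtain ⟨hk1, hk2⟩ := Finset.mem_Icc.1 hk
    have h3 := hM ((8 * n : ℤ) - k) (by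
      rw [abs_le]
      constructor <;> omega)
    linarith
  refine (Finset.sum_le_sum h2).trans ?_
  rw [Finset.sum_const, nsmul_eq_mul]
  have h3 : ((sM n).card : ℝ) ≤ Real.exp (5 * Real.log n) := by
    have h5 : (0 : ℝ) < ((1000 * n : ℕ) : ℝ) := by exact_mod_cast (by omega : 0 < 1000 * n)
    have h6 : ((1000 * n : ℕ) : ℝ) ≤ Real.exp (5 * Real.log n) := by
      rw [← Real.exp_log h5]
      exact Real.exp_le_exp.2 hln8
    refine le_trans ?_ h6
    have h7 : (sM n).card ≤ 1000 * n := by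
      rw [Nat.card_Icc]; omega
    exact_mod_cast h7
  calc ((sM n).card : ℝ) * Real.exp (MX + 1700 * Real.log n) ≤
        Real.exp (5 * Real.log n) * Real.exp (MX + 1700 * Real.log n) :=
        mul_le_mul_of_nonneg_right h3 (Real.exp_pos _).le
    _ = _ := by rw [← Real.exp_add]; congr 1; ring

/-- the entries of the pole part -/
lemma BL_le {n : ℕ} (hn : 6 ≤ n) (β : ℕ → ℚ) (s : Finset ℕ) (hs : s ⊆ Finset.range (20 * n - 20)) (MY : ℝ)
    (hM : ∀ u : ℤ, |u| ≤ 5 * n → n * phi (20 * (u : ℝ) / n) + Lp n (Finset.range (20 * n - 20)) (20 * u) +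
      Lp n s (20 * u) ≤ MY) (i j : ℕ) :
    |((BL n β (lag (Finset.range (20 * n - 20)) (zq n) i * lag s (zq n) j) : ℚ) : ℝ)| ≤
      Real.exp (MY + 1705 * Real.log n + Real.log (1 + ∑ r ∈ Finset.Icc 1 8, |(β r : ℝ)|)) := by
  set S : ℝ := ∑ r ∈ Finset.Icc 1 8, |(β r : ℝ)| with hS
  have hS0 : 0 ≤ S := Finset.sum_nonneg fun _ _ => abs_nonneg _
  have hrho := rho_le hn s hs MY hM i j
  rw [BL_apply]
  set Q : ℚ[X] := lag (Finset.range (20 * n - 20)) (zq n) i * lag s (zq n) j with hQ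
  unfold xb
  rw [Rat.cast_sum]
  calc |∑ r ∈ Finset.Icc 1 8, ((rho n (PM n * EM n Q) r * β r : ℚ) : ℝ)|
      ≤ ∑ r ∈ Finset.Icc 1 8, |((rho n (PM n * EM n Q) r * β r : ℚ) : ℝ)| := Finset.abs_sum_le_sum_abs _ _
    _ ≤ ∑ r ∈ Finset.Icc 1 8, Real.exp (MY + 1705 * Real.log n) * |(β r : ℝ)| := by
        apply Finset.sum_le_sum
        intro r hr
        rw [Rat.cast_mul, abs_mul]
        exact mul_le_mul_of_nonneg_right (hrho r hr) (abs_nonneg _)
    _ = Real.exp (MY + 1705 * Real.log n) * S := by rw [← Finset.mul_sum]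
    _ ≤ Real.exp (MY + 1705 * Real.log n) * (1 + S) :=
        mul_le_mul_of_nonneg_left (by linarith) (Real.exp_pos _).le
    _ = _ := by
        rw [Real.exp_add (MY + 1705 * Real.log n), Real.exp_log (by linarith)]

end RH

/-- RH: the coefficients, for any family of nodes in the second factor -/
theorem rho_le' : SRH :=
  ⟨1705, by norm_num, fun _ hn s hs MX hM i j r hr => RH.rho_le hn s hs MX hM i j r hr⟩

/-- BL: the entries of the pole part, the dependence on `β` explicit -/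
theorem BL_le' : SBL :=
  ⟨1705, by norm_num, fun _ hn β s hs MY hM i j => RH.BL_le hn β s hs MY hM i j⟩

end

end Pool.Agent.Dim7.PD
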