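import Pool.Agent.Dim7.PD.Stmts
import Pool.Agent.Dim7.B1
import Pool.Agent.Dim7.G1

/-!
# The linear forms at perturbed zeta values (dimension 7)

`sv n Q` is the value of the series; `AL n α Q + θ BL n β Q` differs from it by the coefficients times the
differences `α i + θ β i - ζ(i)`, `i = 3, 5, 7`. The last part is `G1_entryN_of` of
`Pool/Agent/Dim7/G1.lean` for `sv`.
-/

open Polynomial Pool.Agent.H337R2

namespace Pool.Agent.Dim7.PD

noncomputable section

theorem sv_hasSum {n : ℕ} (hn : 10 ≤ n) (Q : ℚ[X]) (hQ : Q.natDegree ≤ 30 * n) :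
    HasSum (fun t : ℕ => wv n (8 * n + 1 + t) * ((Q.eval (((8 * n + 1 + t : ℕ) : ℚ) ^ 2) : ℚ) : ℝ)) (sv n Q) := by
  have hd := B1.deg hn Q hQ
  have h1 := Pool.Agent.H574R2.D3.B1_form (sM n) mM (PM n * EM n Q) hd (3 * n) 8
    (fun k hk => (Finset.mem_Icc.1 hk).1) (fun k _ => le_rfl) (by
      intro m hm
      have : (ZM n).eval (-(m : ℚ)) = 0 := by
        unfold ZM
        rw [Polynomial.eval_mul, Polynomial.eval_mul, Polynomial.eval_prod,
          Finset.prod_eq_zero (Finset.mem_range.2 hm) (by simp), zero_mul, zero_mul]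
      unfold PM
      rw [Polynomial.eval_mul, Polynomial.eval_mul, this, mul_zero, zero_mul])
  have h2 : (fun t : ℕ => wv n (8 * n + 1 + t) * ((Q.eval (((8 * n + 1 + t : ℕ) : ℚ) ^ 2) : ℚ) : ℝ)) =
      fun t : ℕ => (((PM n * EM n Q).eval ((t : ℚ) + 1) / (QQ (sM n) mM).eval ((t : ℚ) + 1) : ℚ) : ℝ) := by
    funext t
    rw [B1.val]
  rw [h2]
  exact h1

theorem rho_one {n : ℕ} (hn : 10 ≤ n) (Q : ℚ[X]) (hQ : Q.natDegree ≤ 30 * n) : rho n (PM n * EM n Q) 1 = 0 :=
  residue_sum (sM n) mM (PM n * EM n Q) (B1.deg hn Q hQ)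

theorem rho_even (n : ℕ) (Q : ℚ[X]) {i : ℕ} (hi : Even i) (hi1 : 1 ≤ i) : rho n (PM n * EM n Q) i = 0 :=
  even_vanish (sM n) mM (PM n * EM n Q) (16 * n)
    (fun k hk => by
      rw [Finset.mem_Icc] at hk ⊢
      omega) (fun k hk => rfl)
    (B1.P_comp n Q) (by
      rw [Finset.sum_const, smul_eq_mul]
      exact (by decide : Even 8).mul_left _) hi hi1

/-- the perturbed form -/
theorem sv_add {n : ℕ} (hn : 10 ≤ n) (α β : ℕ → ℚ) (θ : ℝ) (Q : ℚ[X]) (hQ : Q.natDegree ≤ 30 * n) :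
    ((AL n α Q : ℚ) : ℝ) + θ * ((BL n β Q : ℚ) : ℝ) = sv n Q +
      ∑ i ∈ ({3, 5, 7} : Finset ℕ), ((rho n (PM n * EM n Q) i : ℚ) : ℝ) *
        ((α i : ℝ) + θ * (β i : ℝ) - zr i) := by
  have h1 : ((AL n α Q : ℚ) : ℝ) + θ * ((BL n β Q : ℚ) : ℝ) - sv n Q =
      ∑ i ∈ Finset.Icc 1 8, ((rho n (PM n * EM n Q) i : ℚ) : ℝ) *
        ((α i : ℝ) + θ * (β i : ℝ) - (if i = 1 then 0 else zr i)) := by
    rw [AL_apply, BL_apply]
    unfold xa xb sv rho
    rw [Rat.cast_sum, Rat.cast_sum, Finset.mul_sum, ← Finset.sum_add_distrib, ← Finset.sum_sub_distrib]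
    apply Finset.sum_congr rfl
    intro i _
    push_cast
    ring
  have h2 : ∑ i ∈ ({3, 5, 7} : Finset ℕ), ((rho n (PM n * EM n Q) i : ℚ) : ℝ) *
        ((α i : ℝ) + θ * (β i : ℝ) - zr i) =
      ∑ i ∈ Finset.Icc 1 8, ((rho n (PM n * EM n Q) i : ℚ) : ℝ) *
        ((α i : ℝ) + θ * (β i : ℝ) - (if i = 1 then 0 else zr i)) := by
    have e0 : ∑ i ∈ ({3, 5, 7} : Finset ℕ), ((rho n (PM n * EM n Q) i : ℚ) : ℝ) *
        ((α i : ℝ) + θ * (β i : ℝ) - zr i) =
      ∑ i ∈ ({3, 5, 7} : Finset ℕ), ((rho n (PM n * EM n Q) i : ℚ) : ℝ) *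
        ((α i : ℝ) + θ * (β i : ℝ) - (if i = 1 then 0 else zr i)) := by
      apply Finset.sum_congr rfl
      intro i hi
      have : i ≠ 1 := by
        rintro rfl
        revert hi
        decide
      rw [if_neg this]
    rw [e0]
    apply Finset.sum_subset (by decide)
    intro i hi hi2
    have h3 : i = 1 ∨ (Even i ∧ 1 ≤ i) := by
      revert hi2
      rw [Finset.mem_Icc] at hi
      obtain ⟨a, b⟩ := hi
      interval_cases i <;> decide
    have h4 : rho n (PM n * EM n Q) i = 0 := by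
      rcases h3 with rfl | h3
      · exact rho_one hn Q hQ
      · exact rho_even n Q h3.1 h3.2
    rw [h4]
    simp
  rw [h2, ← h1]
  ring

theorem sv_add' : SSVadd := fun _ hn α β θ Q hQ => sv_add hn α β θ Q hQ

/-- entries of the zeta part -/
theorem sv_entry' : SSVentry := by
  intro n hn MM hM hsup i j hi hj
  classical
  set Q : ℚ[X] := lag (Finset.range (20 * n - 20)) (zq n) i * lag (Finset.range (10 * n - 10)) (zq n) j
    with hQ
  have hi' : i ∈ Finset.range (20 * n - 20) := Finset.mem_range.mpr hi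
  have hj' : j ∈ Finset.range (10 * n - 10) := Finset.mem_range.mpr hj
  have hdeg : Q.natDegree ≤ 30 * n := by
    refine (Polynomial.natDegree_mul_le).trans ?_
    have h1 := G1.g1_deg_lag n (Finset.range (20 * n - 20)) i
    have h2 := G1.g1_deg_lag n (Finset.range (10 * n - 10)) j
    rw [Finset.card_erase_of_mem hi', Finset.card_range] at h1
    rw [Finset.card_erase_of_mem hj', Finset.card_range] at h2
    omega
  have hS := sv_hasSum hn Q hdeg
  set T : ℝ := (if j < 5 * n - 1 then wv n (8 * n + 1 + j) *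
      Real.exp (Lp n (Finset.range (20 * n - 20)) (20 * (8 * n + 1 + j)) +
        Lp n (Finset.range (10 * n - 10)) (20 * (8 * n + 1 + j))) else 0)
    with hT
  have hT0 : 0 ≤ T := by
    rw [hT]
    split_ifs
    · exact mul_nonneg (G1.g1_wv_nonneg _ _) (Real.exp_pos _).le
    · exact le_rfl
  have hG : HasSum (fun t : ℕ => (if t = j then T else 0) + 400 * MM * (1 / (1 + (t : ℝ)) ^ 2))
      (T + 400 * MM * (Real.pi ^ 2 / 6)) :=
    (hasSum_ite_eq j T).add (G1.g1_hasSum.mul_left (400 * MM))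
  have hb : ∀ t : ℕ, ‖wv n (8 * n + 1 + t) *
      ((Q.eval (((8 * n + 1 + t : ℕ) : ℚ) ^ 2) : ℚ) : ℝ)‖ ≤
      (if t = j then T else 0) + 400 * MM * (1 / (1 + (t : ℝ)) ^ 2) := by
    intro t
    have hev : ((Q.eval (((8 * n + 1 + t : ℕ) : ℚ) ^ 2) : ℚ) : ℝ) =
        (∏ k ∈ (Finset.range (20 * n - 20)).erase i,
          ((((20 * (8 * n + 1 + t : ℕ) - nd n k : ℤ) : ℝ) / 20) *
            (((20 * (8 * n + 1 + t : ℕ) + nd n k : ℤ) : ℝ) / 20))) *
        (∏ k ∈ (Finset.range (10 * n - 10)).erase j,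
          ((((20 * (8 * n + 1 + t : ℕ) - nd n k : ℤ) : ℝ) / 20) *
            (((20 * (8 * n + 1 + t : ℕ) + nd n k : ℤ) : ℝ) / 20))) := by
      rw [hQ, Polynomial.eval_mul, Rat.cast_mul, G1.g1_eval_lag, G1.g1_eval_lag]
    have hW := G1.g1_wv_nonneg n (8 * n + 1 + t)
    have hpos2 : 0 ≤ 400 * MM * (1 / (1 + (t : ℝ)) ^ 2) := by positivity
    have hu : (20 : ℤ) ≤ 20 * ((8 * n + 1 + t : ℕ) : ℤ) := by
      push_cast
      omega
    rw [Real.norm_eq_abs, hev, abs_mul, abs_of_nonneg hW, abs_mul]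
    rcases Nat.lt_or_ge t (5 * n - 1) with ht | ht
    · have h0 : (20 * ((8 * n + 1 + t : ℕ) : ℤ)) - nd n t = 0 := by
        rw [G1.g1_nd ht]
        push_cast
        ring
      have ht14 : t ∈ Finset.range (20 * n - 20) := Finset.mem_range.mpr (by omega)
      have ht7 : t ∈ Finset.range (10 * n - 10) := Finset.mem_range.mpr (by omega)
      by_cases hti : t = i
      · by_cases htj : t = j
        · subst hti
          subst htj
          rw [if_pos rfl, hT, if_pos ht]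
          have a1 := G1.g1_le_one n _ t hi' (20 * ((8 * n + 1 + t : ℕ) : ℤ)) hu h0
          have a2 := G1.g1_le_one n _ t hj' (20 * ((8 * n + 1 + t : ℕ) : ℤ)) hu h0
          have a3 := mul_le_mul a1 a2 (abs_nonneg _) (Real.exp_pos _).le
          rw [← Real.exp_add] at a3
          have a4 := mul_le_mul_of_nonneg_left a3 hW
          have e3 : (20 * ((8 * n + 1 + t : ℕ) : ℤ)) = 20 * (8 * (n : ℤ) + 1 + (t : ℤ)) := by
            push_cast
            ring
          rw [e3] at a4 ⊢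
          linarith
        · rw [G1.g1_zero n _ j (20 * ((8 * n + 1 + t : ℕ) : ℤ)) t ht7 htj h0, abs_zero, mul_zero,
            mul_zero]
          rw [if_neg htj]
          linarith
      · rw [G1.g1_zero n _ i (20 * ((8 * n + 1 + t : ℕ) : ℤ)) t ht14 hti h0, abs_zero, zero_mul,
          mul_zero]
        split_ifs <;> linarith
    · have a1 := G1.g1_le n _ i hi' (20 * ((8 * n + 1 + t : ℕ) : ℤ)) hu
      have a2 := G1.g1_le n _ j hj' (20 * ((8 * n + 1 + t : ℕ) : ℤ)) hu
      have a3 := mul_le_mul a1 a2 (abs_nonneg _) (by positivity)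
      have a4 := mul_le_mul_of_nonneg_left a3 hW
      have a5 := hsup (8 * n + 1 + t) (by omega)
      rw [Real.exp_add] at a5
      have a8 : MM / (((8 * n + 1 + t : ℕ) : ℝ)) ^ 2 ≤ MM / (1 + (t : ℝ)) ^ 2 := by
        apply div_le_div_of_nonneg_left hM (by positivity)
        apply pow_le_pow_left₀ (by positivity)
        push_cast
        have : (0 : ℝ) ≤ (n : ℝ) := by positivity
        linarith
      have a6 : wv n (8 * n + 1 + t) *
          (20 * Real.exp (Lp n (Finset.range (20 * n - 20)) (20 * ((8 * n + 1 + t : ℕ) : ℤ))) *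
          (20 * Real.exp (Lp n (Finset.range (10 * n - 10)) (20 * ((8 * n + 1 + t : ℕ) : ℤ))))) =
          400 * (wv n (8 * n + 1 + t) *
          (Real.exp (Lp n (Finset.range (20 * n - 20)) (20 * ((8 * n + 1 + t : ℕ) : ℤ))) *
            Real.exp (Lp n (Finset.range (10 * n - 10)) (20 * ((8 * n + 1 + t : ℕ) : ℤ))))) := by ring
      rw [a6] at a4
      have a7 : 400 * MM * (1 / (1 + (t : ℝ)) ^ 2) = 400 * (MM / (1 + (t : ℝ)) ^ 2) := by ring
      rw [a7]
      have a9 := a5.trans a8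
      split_ifs <;> linarith
  have hfin := hS.norm_le_of_bounded hG hb
  rw [Real.norm_eq_abs] at hfin
  refine hfin.trans ?_
  have := G1.g1_pi
  nlinarith

end

end Pool.Agent.Dim7.PD
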